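import Pool.Agent.Lib.Helper10.UB.E1

namespace Pool.Agent.Results.MP_ff3568_co.UnitBarGirthSeven

open Pool.Agent.Lib.Helper10.UB

/-- Every finite planar graph `G` of girth at least seven has a unit bar visibility representation
with `⌈(Δ(G) + 1) / 3⌉` bars per vertex, so `ub(G) ≤ ⌈(Δ(G) + 1) / 3⌉`, and no planar graph of
girth at least seven has `ub(G) = ⌈(Δ(G) + 1) / 3⌉ + 1`. -/
theorem result :
    (∀ (V : Type) [Fintype V] (G : SimpleGraph V) [DecidableRel G.Adj],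
      IsPlanar G → 7 ≤ G.egirth →
        (∃ B : V → Finset (ℝ × ℝ), IsUnitBarRep G ⌈((G.maxDegree : ℝ) + 1) / 3⌉₊ B) ∧
        ubNumber G ≤ ⌈((G.maxDegree : ℝ) + 1) / 3⌉₊) ∧
    ¬ ∃ (V : Type) (_ : Fintype V) (G : SimpleGraph V) (_ : DecidableRel G.Adj),
      IsPlanar G ∧ 7 ≤ G.egirth ∧ ubNumber G = ⌈((G.maxDegree : ℝ) + 1) / 3⌉₊ + 1 := by
  have main : ∀ (V : Type) [Fintype V] (G : SimpleGraph V) [DecidableRel G.Adj],
      IsPlanar G → 7 ≤ G.egirth →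
        (∃ B : V → Finset (ℝ × ℝ), IsUnitBarRep G ⌈((G.maxDegree : ℝ) + 1) / 3⌉₊ B) ∧
        ubNumber G ≤ ⌈((G.maxDegree : ℝ) + 1) / 3⌉₊ := by
    intro V _ G _ hp hg
    have h := exists_rep V G hp hg
    rw [ceil_eq]
    exact ⟨h, Nat.sInf_le ⟨Nat.succ_pos _, h⟩⟩
  refine ⟨main, ?_⟩
  rintro ⟨V, _, G, _, hp, hg, h⟩
  have := (main V G hp hg).2
  omega

end Pool.Agent.Results.MP_ff3568_co.UnitBarGirthSeven
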